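import Pool.Agent.Coam.Final

/-!
# MP_bd00de_al: coamenable subgroups and the Euler characteristic

`N` is a normal subgroup of finite index of the group `Γ`, the trivial module `F` of `N` has a finite
free resolution of length at most `d` with ranks `c 0, …, c d`, and `(-1)^e χ > 0`,
`χ = ∑ (-1)^k c k`. Then, for every `r`, there are a finite set `S` and `ε > 0` which are a spectral gap of
`ℓ²(Γ/Λ)` for every subgroup `Λ` of infinite index which satisfies `FinCoh F d e r N Λ`: for some
finite-dimensional `M ≠ 0`, in each degree `1 ≤ k ≤ d`, `k ≡ e` mod 2, `dim H^k(Λ ∩ N; M) ≤ r dim M` or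
`FPLe F k r' Λ` with `r' ≤ r`. So a coamenable subgroup which satisfies this for some `r` has finite
index; for instance a coamenable subgroup of type `FP_d` over `F`.
-/

open Coam

namespace Pool.Agent.Results.MP_bd00de_al.EulerCharacteristic

theorem result (F Γ : Type) [Field F] [Group Γ] (N : Subgroup Γ) [N.Normal] (hN : N.index ≠ 0)
    (d e : ℕ) (c : ℕ → ℕ) (hC : FinRes F N d c) (hχ : 0 < (-1) ^ e * chi d c) :
    (∀ r : ℕ, ∃ (S : Finset Γ) (ε : ℝ), 0 < ε ∧ ∀ Λ : Subgroup Γ, Λ.index = 0 →
      FinCoh F d e r N Λ → Gap Λ S ε) ∧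
    (∀ Λ : Subgroup Γ, Coamenable Λ → (∃ r, FinCoh F d e r N Λ) → Λ.FiniteIndex) :=
  ⟨(euler_main F Γ N hN d e c hC hχ).1, (euler_main F Γ N hN d e c hC hχ).2.1⟩

end Pool.Agent.Results.MP_bd00de_al.EulerCharacteristic
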