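import Pool.Agent.Cod.Fin3

/-!
# MP_bd00de_al: coamenable subgroups of `SL₂(ℤ[1/N])` are irreducible

Let `N ≥ 1`, `Γ_M = SL₂(ℤ[1/M])` for `M ∣ N`, `G = SL₂(ℝ) × ∏_{p ∣ N} SL₂(ℚ_p)`; for `N > 1`, `Γ_N` is an irreducible
lattice of `G`, of rank at least two and without a factor with property (T).

* There are a finite set `S` and `ε > 0` such that, for every subgroup `Λ` of `Γ_N`, either `S` and `ε` are a
  spectral gap of `ℓ²(Γ_N/Λ)`, or `Λ` is dense in the product of all the factors of `G` but any one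
  (`Irred`), and `Γ_N = Λ Γ_M` for every `M ∣ N`.
* So a coamenable `Λ` satisfies this, and for every `M ∣ N` the group `Λ ∩ Γ_M` is coamenable in `Γ_M`, of index
  `[Γ_N : Λ]`.
* If `M ∣ N` and every coamenable subgroup of `Γ_M` has finite index, then every coamenable subgroup of `Γ_N` has
  finite index.
-/

open Coam Cod

namespace Pool.Agent.Results.MP_bd00de_al.Irreducible

theorem result (N : ℕ) (hN : N ≠ 0) :
    (∃ (S : Finset (Gp N)) (ε : ℝ), 0 < ε ∧ ∀ Λ : Subgroup (Gp N), Gap Λ S ε ∨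
      (Irred N hN Λ ∧
        ∀ (M : ℕ) (h : M ∣ N) (γ : Gp N), ∃ l ∈ Λ, ∃ δ : Gp M, γ = l * up M N h δ)) ∧
    (∀ Λ : Subgroup (Gp N), Coamenable Λ → Irred N hN Λ ∧
      ∀ (M : ℕ) (h : M ∣ N), (∀ γ : Gp N, ∃ l ∈ Λ, ∃ δ : Gp M, γ = l * up M N h δ) ∧
        Coamenable (Λ.comap (up M N h)) ∧ (Λ.comap (up M N h)).index = Λ.index) ∧
    (∀ M : ℕ, M ∣ N → (∀ Λ : Subgroup (Gp M), Coamenable Λ → Λ.FiniteIndex) →
      ∀ Λ : Subgroup (Gp N), Coamenable Λ → Λ.FiniteIndex) :=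
  irr_final N hN

end Pool.Agent.Results.MP_bd00de_al.Irreducible
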