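import Pool.Agent.Coam.Final

/-!
# MP_bd00de_al: coamenable subgroups of uniform lattices of products of trees

`T i` (`i < n`) are locally finite trees without vertices of degree less than two, each with a
vertex of degree at least three. The group `Γ` acts on them by automorphisms, and the normal
subgroup `N` of finite index preserves the two types of vertices of every tree and acts freely and
with finitely many orbits on the vertices of the product of the trees. (Every lattice of a product
of `n` groups of rank one over non-archimedean local fields of characteristic zero is such a group.)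

* For every field `F` and every `r` there are a finite set `S` and `ε > 0` which are a spectral gap of
  `ℓ²(Γ/Λ)` for every subgroup `Λ` of infinite index with `FinCoh F n n r N Λ`: for some finite-dimensional
  `M ≠ 0`, in each degree `1 ≤ k ≤ n`, `k ≡ n` mod 2, `dim H^k(Λ ∩ N; M) ≤ r dim M` or `FPLe F k r' Λ` with
  `r' ≤ r`. A coamenable subgroup with `FinCoh F n n r N Λ` for some `r` has finite index.
* In the case `n = 2` this applies to the subgroups with `r` relators, and every finitely presented
  coamenable subgroup of `Γ` has finite index.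
-/

open Coam

namespace Pool.Agent.Results.MP_bd00de_al.ProductsOfTrees

theorem result (Γ : Type) [Group Γ] (n : ℕ) (V : Fin n → Type) (T : ∀ i, SimpleGraph (V i))
    (hT : ∀ i, (T i).IsTree) (hdeg : ∀ i v, 2 ≤ Nat.card ((T i).neighborSet v))
    (hdeg3 : ∀ i, ∃ v, 3 ≤ Nat.card ((T i).neighborSet v))
    (a : ∀ i, Γ →* (T i ≃g T i)) (col : ∀ i, (T i).Coloring Bool)
    (N : Subgroup Γ) [N.Normal] (hN : N.index ≠ 0)
    (hcol : ∀ g ∈ N, ∀ i v, col i (a i g v) = col i v)
    (hfree : ∀ g ∈ N, ∀ x : ∀ i, V i, (∀ i, a i g (x i) = x i) → g = 1)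
    (K : Finset (∀ i, V i)) (hK : ∀ x : ∀ i, V i, ∃ g ∈ N, (fun i => a i g (x i)) ∈ K) :
    (∀ (F : Type) [Field F] (r : ℕ), ∃ (S : Finset Γ) (ε : ℝ), 0 < ε ∧ ∀ Λ : Subgroup Γ,
      Λ.index = 0 → FinCoh F n n r N Λ → Gap Λ S ε) ∧
    (∀ (F : Type) [Field F] (Λ : Subgroup Γ), Coamenable Λ → (∃ r, FinCoh F n n r N Λ) →
      Λ.FiniteIndex) ∧
    (n = 2 →
      (∀ r : ℕ, ∃ (S : Finset Γ) (ε : ℝ), 0 < ε ∧ ∀ Λ : Subgroup Γ, Λ.index = 0 →
        RelLe r Λ → Gap Λ S ε) ∧
      (∀ Λ : Subgroup Γ, Coamenable Λ → Group.IsFinitelyPresented Λ → Λ.FiniteIndex)) :=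
  have h := trees_final Γ n V T hT hdeg hdeg3 a col N hN hcol hfree K hK
  ⟨h.1, h.2.1, h.2.2.2⟩

end Pool.Agent.Results.MP_bd00de_al.ProductsOfTrees
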