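import Pool.Agent.Cod.Fin3

/-!
# MP_bd00de_al: coamenable subgroups of `SL₂(ℤ[1/N])` with a finiteness condition

Let `N ≥ 1` be an integer, `M ∣ N` with `ω` prime factors, `Γ_N = SL₂(ℤ[1/N])` (for `N > 1` an irreducible lattice of
`SL₂(ℝ) × ∏_{p ∣ N} SL₂(ℚ_p)`, of rank at least two and without a factor with property (T)), `d = 1 + ω`. The finiteness
condition is on `Λ ∩ Γ_M` only.

* For every `q > 2` prime to `M`, every field `F` and every `r` there are a finite set `S` and `ε > 0` which are a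
  spectral gap of `ℓ²(Γ_N/Λ)` for every subgroup `Λ` of infinite index of `Γ_N` with
  `FinCoh F d d r Γ_M(q) (Λ ∩ Γ_M)`: for some finite-dimensional `V ≠ 0`, in each degree `1 ≤ k ≤ d`, `k ≡ d` mod 2,
  `dim H^k(Λ ∩ Γ_M(q); V) ≤ r dim V` or `FPLe F k r' (Λ ∩ Γ_M)` with `r' ≤ r`. A coamenable subgroup `Λ` of `Γ_N` with
  this property for some `r` has finite index; for instance if `Λ ∩ Γ_M` is of type `FP_d` over `F`.
* For `M = 1` this applies if `Λ ∩ SL₂(ℤ)` is generated by `r` elements, and a coamenable `Λ` with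
  `Λ ∩ SL₂(ℤ)` finitely generated has finite index.
* For `ω = 1` it applies if `Λ ∩ Γ_M` has `r` relators, and a coamenable `Λ` with `Λ ∩ Γ_M` finitely presented has
  finite index.
-/

open Coam Cod

namespace Pool.Agent.Results.MP_bd00de_al.SArithmetic

theorem result (N : ℕ) (hN : N ≠ 0) (M : ℕ) (h : M ∣ N) :
    (∀ (q : ℕ) (hq : Nat.Coprime M q), 2 < q → ∀ (F : Type) [Field F] (r : ℕ),
      ∃ (S : Finset (Gp N)) (ε : ℝ), 0 < ε ∧ ∀ Λ : Subgroup (Gp N), Λ.index = 0 →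
        FinCoh F (1 + M.primeFactors.card) (1 + M.primeFactors.card) r (Gq M q hq)
          (Λ.comap (up M N h)) → Gap Λ S ε) ∧
    (∀ (q : ℕ) (hq : Nat.Coprime M q), 2 < q → ∀ (F : Type) [Field F] (Λ : Subgroup (Gp N)),
      Coamenable Λ →
      (∃ r, FinCoh F (1 + M.primeFactors.card) (1 + M.primeFactors.card) r (Gq M q hq)
        (Λ.comap (up M N h))) → Λ.FiniteIndex) ∧
    (M = 1 →
      (∀ r : ℕ, ∃ (S : Finset (Gp N)) (ε : ℝ), 0 < ε ∧ ∀ Λ : Subgroup (Gp N), Λ.index = 0 →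
        (∃ s : Finset (Gp M), s.card ≤ r ∧
          Subgroup.closure (s : Set (Gp M)) = Λ.comap (up M N h)) → Gap Λ S ε) ∧
      (∀ Λ : Subgroup (Gp N), Coamenable Λ → (Λ.comap (up M N h)).FG → Λ.FiniteIndex)) ∧
    (M.primeFactors.card = 1 →
      (∀ r : ℕ, ∃ (S : Finset (Gp N)) (ε : ℝ), 0 < ε ∧ ∀ Λ : Subgroup (Gp N), Λ.index = 0 →
        RelLe r (Λ.comap (up M N h)) → Gap Λ S ε) ∧
      (∀ Λ : Subgroup (Gp N), Coamenable Λ → Group.IsFinitelyPresented (Λ.comap (up M N h)) →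
        Λ.FiniteIndex)) :=
  sar_final N hN M h

end Pool.Agent.Results.MP_bd00de_al.SArithmetic
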